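import Pool.Agent.W263.HI.Inv

/-! The mean square of the remainder and the Hardy space. -/

set_option autoImplicit false

namespace Pool.Agent.W263.HI

open MeasureTheory Filter Topology Set Classical
open Pool.Agent.W263.BSD Pool.Agent.W263.EP Pool.Agent.W263.MN Pool.Agent.W263.LG
open Pool.Agent.W263.MS
open Pool.Agent.H341R2 (NormSys)
open scoped ENNReal

theorem unif_ptw {G : ℂ → ℂ} (hG : ∀ w : ℂ, 0 < w.re → DifferentiableAt ℂ G w) {K : ℝ}
    (hK : 0 ≤ K) (h : ∀ σ : ℝ, 0 < σ → σ ≤ 1 → ∫⁻ y : ℝ,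
      ENNReal.ofReal (‖G ((σ : ℂ) + y * Complex.I)‖ ^ 2) ≤ ENNReal.ofReal K)
    {w : ℂ} (hw : 0 < w.re) (hw1 : w.re ≤ 2 / 3) : ‖G w‖ ≤ 4 * (K + 1) * (1 / w.re) := by
  set τ : ℂ := (w.im : ℂ) * Complex.I with hτ
  have hτre : τ.re = 0 := by simp [hτ]
  have h1 := hardy_ptw (Λ := fun z => G (z + τ)) (K := K) (fun z hz => by
      have h2 : 0 < (z + τ).re := by rw [Complex.add_re, hτre]; linarith
      exact DifferentiableAt.comp (g := G) (f := fun z => z + τ) z (hG _ h2) (by fun_prop)) hK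
    (fun σ hσ hσ1 => by
      refine le_trans ?_ (h σ hσ hσ1)
      rw [← lintegral_add_right_eq_self (fun y : ℝ =>
        ENNReal.ofReal (‖G ((σ : ℂ) + y * Complex.I)‖ ^ 2)) w.im]
      refine lintegral_mono fun y => ENNReal.ofReal_le_ofReal ?_
      have e : (σ : ℂ) + y * Complex.I + τ = (σ : ℂ) + ((y + w.im : ℝ) : ℂ) * Complex.I := by
        rw [hτ]
        push_cast
        ring
      simp only [e]
      exact div_le_self (sq_nonneg _) (by nlinarith [sq_nonneg y]))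
    (w := (w.re : ℂ)) (by simpa using hw) (by simpa using hw1)
  have e : (w.re : ℂ) + τ = w := by rw [hτ]; exact Complex.re_add_im w
  simp only [e, Complex.ofReal_re, Complex.norm_real, Real.norm_eq_abs, abs_of_pos hw] at h1
  refine h1.trans ?_
  have h2 : 0 < 1 / w.re := by positivity
  have h3 : (1 + w.re) * (1 / w.re) ≤ 2 * (1 / w.re) := by
    refine mul_le_mul_of_nonneg_right ?_ h2.le
    linarith
  calc 2 * (K + 1) * ((1 + w.re) * (1 / w.re)) ≤ 2 * (K + 1) * (2 * (1 / w.re)) := by gcongr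
    _ = _ := by ring

variable {S : NormSys} {bad : Set S.X} {tr : S.X → ℕ → ℝ} {ω : ℝ} {D : ℝ} {Λ : ℂ → ℂ}
  {ρ L : ℝ}

theorem w_ne {w : ℂ} (hw : 0 < w.re) : w ≠ 0 := by
  rintro rfl
  simp at hw

/-- pointwise bound of `g(w)/w` -/
theorem quot_ptw (E : TData S (tn S bad tr ω) D)
    (hΛd : ∀ w : ℂ, 0 < w.re → DifferentiableAt ℂ Λ w)
    (hΛ : ∀ w : ℂ, 1 / 2 < w.re → Λ w = Lam S bad tr ω w) {K : ℝ} (hK : 0 ≤ K)
    (hH : ∀ σ : ℝ, 0 < σ → σ ≤ 1 → ∫⁻ t : ℝ, ENNReal.ofReal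
      (‖gg Λ ρ L ((σ : ℂ) + t * Complex.I) / ((σ : ℂ) + t * Complex.I)‖ ^ 2) ≤ ENNReal.ofReal K) :
    ∃ C : ℝ, 0 ≤ C ∧ ∀ w : ℂ, 0 < w.re → w.re ≤ 1 → ‖gg Λ ρ L w / w‖ ≤ C * (1 / w.re) := by
  have hsum := (prod_summable S (show -(1 / 2) - 2 / 3 < (-1 : ℝ) by norm_num) D 0)
  set K1 : ℝ := ∑' p : S.X × ℕ, D * ((S.N p.1 : ℝ) ^ ((-(1 / 2) - 2 / 3 : ℝ)) *
    (3 / 4 : ℝ) ^ (p.2 - 0)) with hK1
  refine ⟨4 * (K + 1) + 3 * (|K1| + |ρ| * 24 + |L|), by positivity, fun w hw hw1 => ?_⟩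
  have h6 : 1 ≤ 1 / w.re := by rw [one_le_div hw]; exact hw1
  have hn : w.re ≤ ‖w‖ := re_le w
  have hn0 : 0 < ‖w‖ := hw.trans_le hn
  rcases le_or_gt w.re (2 / 3) with h2 | h2
  · have h3 := unif_ptw (G := fun w => gg Λ ρ L w / w)
      (fun w hw => (gg_diff hΛd hw).div differentiableAt_id (w_ne hw)) hK hH hw h2
    have h4 : 0 ≤ 3 * (|K1| + |ρ| * 24 + |L|) * (1 / w.re) := by positivity
    rw [add_mul]
    linarith
  · have h3 : ‖Λ w‖ ≤ |K1| := by
      refine le_trans ?_ (le_abs_self K1)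
      rw [hΛ w (by linarith), Lam_eq E (by linarith)]
      exact tsum_of_norm_bounded hsum.hasSum fun p => E.LL_le p (by norm_num) h2.le
    have h4 := log_le_simple hw hw1
    have h5 : 1 / w.re ≤ 3 / 2 := by
      rw [div_le_iff₀ hw]; linarith
    have h7 : ‖Complex.log w‖ ≤ 12 * (1 + ‖w‖) := by
      refine h4.trans ?_
      have : (1 + ‖w‖) * (1 / w.re) ≤ (1 + ‖w‖) * (3 / 2) := by gcongr
      linarith
    have h8 : ‖gg Λ ρ L w‖ ≤ |K1| + |ρ| * (12 * (1 + ‖w‖)) + |L| := by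
      unfold gg
      calc ‖Λ w - ρ * Complex.log w - L‖ ≤ ‖Λ w‖ + |ρ| * ‖Complex.log w‖ + |L| := by
            refine (norm_sub_le _ _).trans ?_
            rw [Complex.norm_real, Real.norm_eq_abs]
            gcongr
            refine (norm_sub_le _ _).trans ?_
            rw [norm_mul, Complex.norm_real, Real.norm_eq_abs]
        _ ≤ _ := by gcongr
    have h9 : 2 / 3 ≤ ‖w‖ := by linarith
    rw [norm_div, div_le_iff₀ hn0]
    have h10 : |K1| + |ρ| * (12 * (1 + ‖w‖)) + |L| ≤ 3 * (|K1| + |ρ| * 24 + |L|) * ‖w‖ := by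
      have a1 : |K1| ≤ 3 * |K1| * ‖w‖ := by nlinarith [abs_nonneg K1]
      have a2 : |L| ≤ 3 * |L| * ‖w‖ := by nlinarith [abs_nonneg L]
      have a3 : |ρ| * (12 * (1 + ‖w‖)) ≤ 3 * (|ρ| * 24) * ‖w‖ := by nlinarith [abs_nonneg ρ]
      nlinarith
    refine h8.trans (h10.trans ?_)
    have h11 : 0 ≤ 4 * (K + 1) := by positivity
    have h12 : 3 * (|K1| + |ρ| * 24 + |L|) ≤
        (4 * (K + 1) + 3 * (|K1| + |ρ| * 24 + |L|)) * (1 / w.re) := by
      have h13 : 0 ≤ 4 * (K + 1) + 3 * (|K1| + |ρ| * 24 + |L|) := by positivity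
      nlinarith
    exact mul_le_mul_of_nonneg_right h12 hn0.le

/-- the second remainder has polynomial growth -/
theorem two_wsq (E : TData S (tn S bad tr ω) D)
    (hΛd : ∀ w : ℂ, 0 < w.re → DifferentiableAt ℂ Λ w)
    (hΛ : ∀ w : ℂ, 1 / 2 < w.re → Λ w = Lam S bad tr ω w) {K : ℝ} (hK : 0 ≤ K)
    (hH : ∀ σ : ℝ, 0 < σ → σ ≤ 1 → ∫⁻ t : ℝ, ENNReal.ofReal
      (‖gg Λ ρ L ((σ : ℂ) + t * Complex.I) / ((σ : ℂ) + t * Complex.I)‖ ^ 2) ≤ ENNReal.ofReal K) :
    WSq (rem (ap S (tn S bad tr ω)) ρ L 2) := by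
  have P := pair E
  set a := ap S (tn S bad tr ω) with ha
  obtain ⟨C, hC0, hC⟩ := quot_ptw (ρ := ρ) (L := L) E hΛd hΛ hK hH
  obtain ⟨C', hC'⟩ := inv_poly (f := rem a ρ L 2) (rem_meas P.am 2) (fun u hu => by
      have h1 : ContinuousAt (EP.intU (rem a ρ L 1)) u :=
        intU_cont (rem_meas P.am 1) (rem_loc P.al 0) hu
      refine h1.congr ?_
      filter_upwards [Ioi_mem_nhds hu] with v hv
      exact rem_intU P.am P.al 1 hv)
    ((rem_LInt one_pos).mpr (ap_half E 2 1 (by norm_num)))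
    (H := fun w => gg Λ ρ L w / w / w ^ 2)
    (fun w hw => ((gg_diff hΛd hw).div differentiableAt_id (w_ne hw)).div
      (differentiableAt_id.pow 2) (pow_ne_zero 2 (w_ne hw))) (A := 3) (C := 2 * C)
    (by positivity) (fun w hw hw1 => by
      have h1 := hC w hw hw1
      have h2 := sq_decay (y := w.im) hw hw1
      have h3 : ‖w‖ ^ 2 = w.re ^ 2 + w.im ^ 2 := by
        rw [Complex.sq_norm, Complex.normSq_apply]; ring
      rw [norm_div, norm_pow, h3, div_eq_mul_inv]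
      calc ‖gg Λ ρ L w / w‖ * (w.re ^ 2 + w.im ^ 2)⁻¹ ≤ C * (1 / w.re) *
            (2 * (1 / w.re) ^ 2 * (1 + |w.im|) ^ (-(3 / 2 : ℝ))) :=
            mul_le_mul h1 h2 (by positivity) (by positivity)
        _ = _ := by ring)
    (fun w hw => by
      have h1 := lapC_rem_half (ρ := ρ) (L := L) E (k := 2) (fun w hw => lapC_ria_two E hw)
        (w := w) (by rw [hw]; norm_num)
      have hwn : w ≠ 0 := w_ne (by rw [hw]; exact one_pos)
      have h2 : w ^ 3 * lapC (rem a ρ L 2) w = gg Λ ρ L w := by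
        unfold gg
        rw [hΛ w (by rw [hw]; norm_num)]
        exact h1
      rw [← h2]
      field_simp)
  obtain ⟨B, hB⟩ := rem_loc (ρ := ρ) (L := L) P.al 1 1
  refine wsq_of_poly (C0 := |B| + |C'|) (k := 3) fun u hu => ?_
  have h1 : (1 : ℝ) ≤ (1 + u) ^ 3 := one_le_pow₀ (by linarith)
  rcases le_or_gt u 1 with h2 | h2
  · have h3 := hB u hu h2
    have h4 : |B| * 1 ≤ |B| * (1 + u) ^ 3 := mul_le_mul_of_nonneg_left h1 (abs_nonneg B)
    have h5 : 0 ≤ |C'| * (1 + u) ^ 3 := by positivity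
    have := le_abs_self B
    rw [add_mul]
    linarith
  · have h3 := hC' u h2.le
    have h4 : u ^ 3 ≤ (1 + u) ^ 3 := pow_le_pow_left₀ hu.le (by linarith) 3
    have h5 : C' * u ^ 3 ≤ |C'| * (1 + u) ^ 3 := by
      calc C' * u ^ 3 ≤ |C'| * u ^ 3 :=
            mul_le_mul_of_nonneg_right (le_abs_self _) (by positivity)
        _ ≤ _ := mul_le_mul_of_nonneg_left h4 (abs_nonneg _)
    have h6 : 0 ≤ |B| * (1 + u) ^ 3 := by positivity
    rw [add_mul]
    linarith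

/-- **From the Hardy space to the mean square.** -/
theorem sq_of_hardy (E : TData S (tn S bad tr ω) D)
    (hΛd : ∀ w : ℂ, 0 < w.re → DifferentiableAt ℂ Λ w)
    (hΛ : ∀ w : ℂ, 1 / 2 < w.re → Λ w = Lam S bad tr ω w) {K : ℝ}
    (hH : ∀ σ : ℝ, 0 < σ → σ ≤ 1 → ∫⁻ t : ℝ, ENNReal.ofReal
      (‖gg Λ ρ L ((σ : ℂ) + t * Complex.I) / ((σ : ℂ) + t * Complex.I)‖ ^ 2) ≤ ENNReal.ofReal K) :
    ∫⁻ u in Ioi (0 : ℝ), ENNReal.ofReal (rem (ap S (tn S bad tr ω)) ρ L 0 u ^ 2) < ⊤ := by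
  have P := pair E
  set a := ap S (tn S bad tr ω) with ha
  have hH' : ∀ σ : ℝ, 0 < σ → σ ≤ 1 → ∫⁻ t : ℝ, ENNReal.ofReal
      (‖gg Λ ρ L ((σ : ℂ) + t * Complex.I) / ((σ : ℂ) + t * Complex.I)‖ ^ 2) ≤
        ENNReal.ofReal |K| := fun σ hσ hσ1 =>
    (hH σ hσ hσ1).trans (ENNReal.ofReal_le_ofReal (le_abs_self K))
  have W2 := two_wsq (ρ := ρ) (L := L) E hΛd hΛ (abs_nonneg K) hH'
  have I2 : ∀ w > 0, LInt (rem a ρ L 2) w := fun w hw => LInt_of_sq (rem_meas P.am 2) W2 hw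
  have W1 : WSq (rem a ρ L 1) := by
    refine wsq_of_le_one fun σ hσ hσ1 => ?_
    refine lt_of_le_of_lt (down_line P.am P.al (k := 1) W2 hσ (C := ENNReal.ofReal (1 / σ ^ 2) *
      ENNReal.ofReal |K|) ?_) ?_
    · refine le_trans ?_ (mul_le_mul' le_rfl (hH' σ hσ hσ1))
      rw [← lintegral_const_mul' _ _ ENNReal.ofReal_ne_top]
      refine lintegral_mono fun y => ?_
      rw [← ENNReal.ofReal_mul (by positivity)]
      refine ENNReal.ofReal_le_ofReal ?_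
      set w : ℂ := (σ : ℂ) + y * Complex.I with hw
      have hwre : 0 < w.re := by rw [hw]; simpa using hσ
      have hwre' : w.re = σ := by rw [hw]; simp
      have h1 := lapC_rem_all (k := 2) E (fun w hw => lapC_ria_two E hw) hΛd hΛ I2 hwre
      have hwn : w ≠ 0 := w_ne hwre
      have h2 : w * lapC (rem a ρ L 2) w = (1 / w) * (gg Λ ρ L w / w) := by
        have h3 : w ^ 3 * lapC (rem a ρ L 2) w = gg Λ ρ L w := h1
        rw [← h3]
        field_simp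
      have h3 : ‖(1 / w : ℂ)‖ ^ 2 ≤ 1 / σ ^ 2 := by
        rw [norm_div, norm_one, div_pow, one_pow]
        refine one_div_le_one_div_of_le (by positivity) ?_
        refine pow_le_pow_left₀ hσ.le ?_ 2
        rw [← hwre']
        exact re_le w
      rw [show (1 + 1 : ℕ) = 2 from rfl, h2, norm_mul, mul_pow]
      exact mul_le_mul_of_nonneg_right h3 (sq_nonneg _)
    · exact ENNReal.mul_lt_top ENNReal.ofReal_lt_top
        (ENNReal.mul_lt_top ENNReal.ofReal_lt_top ENNReal.ofReal_lt_top)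
  have I1 : ∀ w > 0, LInt (rem a ρ L 1) w := fun w hw => LInt_of_sq (rem_meas P.am 1) W1 hw
  refine lt_of_le_of_lt (sq_of_all (rem_meas P.am 0) (C := ENNReal.ofReal (Real.exp 2) *
    ENNReal.ofReal |K|) fun σ hσ hσ1 => ?_) (ENNReal.mul_lt_top ENNReal.ofReal_lt_top
    ENNReal.ofReal_lt_top)
  refine (down_line P.am P.al (k := 0) W1 hσ (C := ENNReal.ofReal |K|) ?_).trans ?_
  · refine le_trans (lintegral_mono fun y => ENNReal.ofReal_le_ofReal (le_of_eq ?_))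
      (hH' σ hσ hσ1)
    set w : ℂ := (σ : ℂ) + y * Complex.I with hw
    have hwre : 0 < w.re := by rw [hw]; simpa using hσ
    have h1 := lapC_rem_all (k := 1) E (fun w _ => lapC_ria_one w) hΛd hΛ I1 hwre
    have hwn : w ≠ 0 := w_ne hwre
    have h3 : w ^ 2 * lapC (rem a ρ L 1) w = gg Λ ρ L w := h1
    have h2 : w * lapC (rem a ρ L 1) w = gg Λ ρ L w / w := by
      rw [← h3]
      field_simp
    rw [show (0 + 1 : ℕ) = 1 from rfl, h2]
  · refine mul_le_mul' (ENNReal.ofReal_le_ofReal (Real.exp_le_exp.mpr ?_)) le_rfl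
    linarith

theorem lapC_ria_zero (E : TData S (tn S bad tr ω) D) {w : ℂ} (hw : 1 / 2 < w.re) :
    w ^ (0 + 1) * lapC (EP.ria (ap S (tn S bad tr ω)) 0) w = -Lam S bad tr ω w := by
  have h1 := lapC_intU' (ria_meas (ap_meas (S := S) (t := tn S bad tr ω)) 0)
    (show (0 : ℝ) ≤ 1 / 2 by norm_num) (ap_half E 0) hw
  have h2 : EP.ria (ap S (tn S bad tr ω)) 1 = EP.intU (EP.ria (ap S (tn S bad tr ω)) 0) := rfl
  rw [← h1, ← h2]
  unfold Lam
  ring

/-- the transform of the remainder -/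
theorem ident (E : TData S (tn S bad tr ω) D)
    (hΛd : ∀ w : ℂ, 0 < w.re → DifferentiableAt ℂ Λ w)
    (hΛ : ∀ w : ℂ, 1 / 2 < w.re → Λ w = Lam S bad tr ω w)
    (W0 : WSq (rem (ap S (tn S bad tr ω)) ρ L 0)) {w : ℂ} (hw : 0 < w.re) :
    lapC (rem (ap S (tn S bad tr ω)) ρ L 0) w = gg Λ ρ L w / w := by
  have P := pair E
  have h1 := lapC_rem_all (k := 0) (ρ := ρ) (L := L) E (fun w hw => lapC_ria_zero E hw) hΛd hΛ
    (fun w hw => LInt_of_sq (rem_meas P.am 0) W0 hw) hw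
  have h2 : w ^ (0 + 1) * lapC (rem (ap S (tn S bad tr ω)) ρ L 0) w = gg Λ ρ L w := h1
  have hwn : w ≠ 0 := w_ne hw
  rw [← h2, pow_succ, pow_zero, one_mul, mul_div_cancel_left₀ _ hwn]

/-- the continuation of the logarithm -/
theorem exists_log (E : TData S (tn S bad tr ω) D)
    (W0 : WSq (rem (ap S (tn S bad tr ω)) ρ L 0)) :
    ∃ Λ : ℂ → ℂ, (∀ w : ℂ, 0 < w.re → DifferentiableAt ℂ Λ w) ∧
      ∀ w : ℂ, 1 / 2 < w.re → Λ w = Lam S bad tr ω w := by
  have P := pair E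
  set a := ap S (tn S bad tr ω) with ha
  have I0 : ∀ w > 0, LInt (rem a ρ L 0) w := fun w hw => LInt_of_sq (rem_meas P.am 0) W0 hw
  refine ⟨fun w => w * lapC (rem a ρ L 0) w + ρ * Complex.log w + L, fun w hw => ?_,
    fun w hw => ?_⟩
  · exact ((differentiableAt_id.mul (lapC_differentiableAt (rem_meas P.am 0) I0 hw)).add
      ((differentiableAt_id.clog (Or.inl hw)).const_mul _)).add_const _
  · have h1 := lapC_rem_half (k := 0) (ρ := ρ) (L := L) E (fun w hw => lapC_ria_zero E hw) hw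
    have h2 : w ^ (0 + 1) * lapC (rem a ρ L 0) w = _ := h1
    rw [zero_add, pow_one] at h2
    simp only []
    rw [h2]
    ring

/-- **The identity on every line.** -/
theorem line_identity (E : TData S (tn S bad tr ω) D)
    (hΛd : ∀ w : ℂ, 0 < w.re → DifferentiableAt ℂ Λ w)
    (hΛ : ∀ w : ℂ, 1 / 2 < w.re → Λ w = Lam S bad tr ω w)
    (W0 : WSq (rem (ap S (tn S bad tr ω)) ρ L 0)) {σ : ℝ} (hσ : 0 < σ) :
    ∫⁻ y : ℝ, ENNReal.ofReal
      (‖gg Λ ρ L ((σ : ℂ) + y * Complex.I) / ((σ : ℂ) + y * Complex.I)‖ ^ 2) =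
      ENNReal.ofReal (2 * Real.pi) * ∫⁻ u in Ioi (0 : ℝ),
        ENNReal.ofReal ((rem (ap S (tn S bad tr ω)) ρ L 0 u * Real.exp (-(σ * u))) ^ 2) := by
  have P := pair E
  set a := ap S (tn S bad tr ω) with ha
  have I0 : ∀ w > 0, LInt (rem a ρ L 0) w := fun w hw => LInt_of_sq (rem_meas P.am 0) W0 hw
  rw [← plancherel_eq (rem_meas P.am 0) W0 hσ ?_]
  · refine lintegral_congr fun y => ?_
    rw [ident E hΛd hΛ W0 (by simpa using hσ)]
  · refine continuous_iff_continuousAt.mpr fun y => ?_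
    have h1 : ContinuousAt (lapC (rem a ρ L 0)) ((σ : ℂ) + y * Complex.I) :=
      (lapC_differentiableAt (rem_meas P.am 0) I0 (by simpa using hσ)).continuousAt
    exact ContinuousAt.comp (f := fun y : ℝ => (σ : ℂ) + y * Complex.I) h1
      (by fun_prop : Continuous fun y : ℝ => (σ : ℂ) + y * Complex.I).continuousAt

end Pool.Agent.W263.HI
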