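import Pool.Agent.W263.HI.Core
import Pool.Agent.W263.MS.Exc

/-! The general theorem: mean square of the logarithm of the partial products and the Hardy space. -/

set_option autoImplicit false

namespace Pool.Agent.W263.HI

open MeasureTheory Filter Topology Set Classical
open Pool.Agent.W263.BSD Pool.Agent.W263.EP Pool.Agent.W263.MN Pool.Agent.W263.LG
open Pool.Agent.W263.MS
open Pool.Agent.H341R2 (NormSys)
open scoped ENNReal

/-- the weighted mean squares converge to the mean square -/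
theorem weighted_tendsto {f : ℝ → ℝ} (hm : Measurable f)
    (hf : ∫⁻ u in Ioi (0 : ℝ), ENNReal.ofReal (f u ^ 2) < ⊤) :
    Tendsto (fun σ : ℝ => ∫⁻ u in Ioi (0 : ℝ), ENNReal.ofReal ((f u * Real.exp (-(σ * u))) ^ 2))
      (𝓝[>] 0) (𝓝 (∫⁻ u in Ioi (0 : ℝ), ENNReal.ofReal (f u ^ 2))) := by
  refine tendsto_lintegral_filter_of_dominated_convergence
    (fun u => ENNReal.ofReal (f u ^ 2)) (Eventually.of_forall fun σ => by fun_prop) ?_ hf.ne ?_
  · filter_upwards [self_mem_nhdsWithin] with σ hσ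
    have hσ0 : (0 : ℝ) < σ := hσ
    refine (ae_restrict_iff' measurableSet_Ioi).mpr (Eventually.of_forall fun u hu => ?_)
    have hu0 : (0 : ℝ) < u := hu
    refine ENNReal.ofReal_le_ofReal ?_
    rw [mul_pow]
    refine mul_le_of_le_one_right (sq_nonneg _) ?_
    rw [← Real.exp_nat_mul]
    refine Real.exp_le_one_iff.mpr ?_
    have := mul_pos hσ0 hu0
    push_cast
    linarith
  · refine Eventually.of_forall fun u => ?_
    have h1 : Continuous fun σ : ℝ => ENNReal.ofReal ((f u * Real.exp (-(σ * u))) ^ 2) := by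
      refine ENNReal.continuous_ofReal.comp ?_
      fun_prop
    have h2 := h1.tendsto 0
    simp only [zero_mul, neg_zero, Real.exp_zero, mul_one] at h2
    exact tendsto_nhdsWithin_of_tendsto_nhds h2

theorem int_of_sq {f : ℝ → ℝ} (hm : Measurable f)
    (hf : ∫⁻ u in Ioi (0 : ℝ), ENNReal.ofReal (f u ^ 2) < ⊤) :
    IntegrableOn (fun u => f u ^ 2) (Ioi 0) := by
  refine ⟨(hm.pow_const 2).aestronglyMeasurable, ?_⟩
  rw [hasFiniteIntegral_iff_ofReal (Eventually.of_forall fun u => sq_nonneg _)]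
  exact hf

/-- the pointwise bound of a transform by the mean square -/
theorem ptw_sq {f : ℝ → ℝ} (hm : Measurable f)
    (hf : ∫⁻ u in Ioi (0 : ℝ), ENNReal.ofReal (f u ^ 2) < ⊤) {w : ℂ} (hw : 0 < w.re) :
    ‖lapC f w‖ ^ 2 ≤ 1 / (2 * w.re) *
      (∫⁻ u in Ioi (0 : ℝ), ENNReal.ofReal (f u ^ 2)).toReal := by
  set σ := w.re with hσ
  have hI2 := int_of_sq hm hf
  have hM : ∫ u in Ioi (0 : ℝ), f u ^ 2 =
      (∫⁻ u in Ioi (0 : ℝ), ENNReal.ofReal (f u ^ 2)).toReal :=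
    integral_eq_lintegral_of_nonneg_ae (Eventually.of_forall fun u => sq_nonneg _)
      hI2.aestronglyMeasurable
  have hL : LInt f σ := LInt_of_sq hm (wsq_of_sq hf) hw
  have hL' : IntegrableOn (fun u => |f u| * Real.exp (-(σ * u))) (Ioi 0) := by
    have hn1 : IntegrableOn (fun u => ‖f u * Real.exp (-(σ * u))‖) (Ioi 0) := Integrable.norm hL
    refine hn1.congr_fun (fun u _ => ?_) measurableSet_Ioi
    simp [abs_of_pos (Real.exp_pos _)]
  have hE : IntegrableOn (fun u : ℝ => Real.exp (-(2 * σ) * u)) (Ioi 0) :=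
    (integrableOn_exp_mul_Ioi (by linarith) 0)
  have hEv : ∫ u in Ioi (0 : ℝ), Real.exp (-(2 * σ) * u) = 1 / (2 * σ) := by
    rw [integral_exp_mul_Ioi (by linarith) 0]
    simp
  set I : ℝ := ∫ u in Ioi (0 : ℝ), |f u| * Real.exp (-(σ * u)) with hI
  have hI0 : 0 ≤ I := integral_nonneg fun u => by positivity
  have hn : ‖lapC f w‖ ≤ I := by
    unfold lapC
    refine (norm_integral_le_integral_norm _).trans (le_of_eq ?_)
    refine setIntegral_congr_fun measurableSet_Ioi fun u _ => ?_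
    rw [norm_mul, Complex.norm_real, Real.norm_eq_abs, Complex.norm_exp]
    have e1 : (-(w * (u : ℂ))).re = -(σ * u) := by simp [hσ]
    rw [e1]
  have hq : 0 ≤ ∫ u in Ioi (0 : ℝ), (|f u| - 2 * σ * I * Real.exp (-(σ * u))) ^ 2 :=
    integral_nonneg fun u => sq_nonneg _
  have e2 : ∫ u in Ioi (0 : ℝ), (|f u| - 2 * σ * I * Real.exp (-(σ * u))) ^ 2 =
      (∫ u in Ioi (0 : ℝ), f u ^ 2) - 2 * (2 * σ * I) * I + (2 * σ * I) ^ 2 * (1 / (2 * σ)) := by
    have e3 : ∀ u : ℝ, (|f u| - 2 * σ * I * Real.exp (-(σ * u))) ^ 2 =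
        (f u ^ 2 - 2 * (2 * σ * I) * (|f u| * Real.exp (-(σ * u)))) +
          (2 * σ * I) ^ 2 * Real.exp (-(2 * σ) * u) := by
      intro u
      have e4 : Real.exp (-(2 * σ) * u) = Real.exp (-(σ * u)) ^ 2 := by
        rw [← Real.exp_nat_mul]
        congr 1
        push_cast
        ring
      rw [e4]
      have := sq_abs (f u)
      linear_combination this
    simp_rw [e3]
    rw [integral_add, integral_sub, integral_const_mul, integral_const_mul, hEv]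
    · exact hI2
    · exact hL'.const_mul _
    · exact hI2.sub (hL'.const_mul _)
    · exact hE.const_mul _
  rw [e2, hM] at hq
  have e5 : (2 * σ * I) ^ 2 * (1 / (2 * σ)) = 2 * σ * I ^ 2 := by
    field_simp
  rw [e5] at hq
  have h1 : 2 * σ * I ^ 2 ≤ (∫⁻ u in Ioi (0 : ℝ), ENNReal.ofReal (f u ^ 2)).toReal := by
    nlinarith
  have h2 : ‖lapC f w‖ ^ 2 ≤ I ^ 2 := pow_le_pow_left₀ (norm_nonneg _) hn 2
  have h3 : I ^ 2 ≤ 1 / (2 * σ) * (∫⁻ u in Ioi (0 : ℝ), ENNReal.ofReal (f u ^ 2)).toReal := by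
    rw [one_div_mul_eq_div, le_div_iff₀ (by positivity)]
    linarith
  exact h2.trans h3

/-- the change of variables `x = e^u` -/
theorem cov_lint (g : ℝ → ℝ≥0∞) :
    ∫⁻ x in Ioi (1 : ℝ), g (Real.log x) * ENNReal.ofReal (1 / x) = ∫⁻ u in Ioi (0 : ℝ), g u := by
  have h1 : Real.exp '' (Ioi (Real.log 1)) = Ioi 1 := exp_image_Ioi 1 one_pos
  rw [Real.log_one] at h1
  rw [← h1, lintegral_image_eq_lintegral_abs_deriv_mul measurableSet_Ioi
    (fun x _ => (Real.hasDerivAt_exp x).hasDerivWithinAt) Real.exp_injective.injOn]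
  refine setLIntegral_congr_fun measurableSet_Ioi fun u _ => ?_
  rw [Real.log_exp, abs_of_pos (Real.exp_pos u), mul_comm, mul_assoc, ← ENNReal.ofReal_mul (by positivity),
    one_div_mul_cancel (Real.exp_pos u).ne', ENNReal.ofReal_one, mul_one]

/-- the integral over a vertical line of the square of `(ℓ(s) - ρ log (s-c) - L) / (s-c)` -/
noncomputable def hardyInt (c : ℝ) (ℓ : ℂ → ℂ) (ρ L σ : ℝ) : ℝ≥0∞ :=
  ∫⁻ t : ℝ, ENNReal.ofReal (‖ℓ ((σ : ℂ) + t * Complex.I) -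
    ρ * Complex.log ((σ : ℂ) + t * Complex.I - c) - L‖ ^ 2 / ‖(σ : ℂ) + t * Complex.I - c‖ ^ 2)

/-- `∫_1^∞ (G(x) + ρ (log log x + γ) - L)² x^{-2δ} dx/x` -/
noncomputable def devSq (G : ℝ → ℝ) (ρ L δ : ℝ) : ℝ≥0∞ :=
  ∫⁻ x in Ioi (1 : ℝ), ENNReal.ofReal ((G x + ρ * (Real.log (Real.log x) +
    Real.eulerMascheroniConstant) - L) ^ 2 * x ^ (-(2 * δ)) / x)

variable {S : NormSys} {bad : Set S.X} {tr : S.X → ℕ → ℝ} {ω : ℝ} {D : ℝ} {ℓ : ℂ → ℂ}
  {ρ L ρ' L' : ℝ}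

theorem devSq_eq (δ : ℝ) : devSq (MK S bad tr ω 0) ρ L δ = ∫⁻ u in Ioi (0 : ℝ),
    ENNReal.ofReal ((rem (ap S (tn S bad tr ω)) ρ L 0 u * Real.exp (-(δ * u))) ^ 2) := by
  rw [← cov_lint]
  unfold devSq
  refine setLIntegral_congr_fun measurableSet_Ioi fun x hx => ?_
  have hx1 : (1 : ℝ) < x := hx
  have hx0 : (0 : ℝ) < x := by linarith
  rw [← ENNReal.ofReal_mul (sq_nonneg _)]
  congr 1
  have e1 : rem (ap S (tn S bad tr ω)) ρ L 0 (Real.log x) = MK S bad tr ω 0 x +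
      ρ * (Real.log (Real.log x) + Real.eulerMascheroniConstant) - L := by
    rw [rem_zero_eq hx1]
    unfold LG.mt
    rw [harmonic_zero]
    push_cast
    ring
  have e2 : x ^ (-(2 * δ)) = Real.exp (-(δ * Real.log x)) ^ 2 := by
    rw [← Real.exp_nat_mul, Real.rpow_def_of_pos hx0]
    congr 1
    push_cast
    ring
  rw [e1, e2, mul_pow]
  ring

theorem devSq_zero : devSq (MK S bad tr ω 0) ρ L 0 = ∫⁻ u in Ioi (0 : ℝ),
    ENNReal.ofReal (rem (ap S (tn S bad tr ω)) ρ L 0 u ^ 2) := by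
  rw [devSq_eq]
  simp

theorem hardyInt_eq (σ : ℝ) : hardyInt ((ω + 1) / 2) ℓ ρ L ((ω + 1) / 2 + σ) =
    ∫⁻ t : ℝ, ENNReal.ofReal (‖gg (fun w => ℓ (((ω : ℂ) + 1) / 2 + w)) ρ L
      ((σ : ℂ) + t * Complex.I) / ((σ : ℂ) + t * Complex.I)‖ ^ 2) := by
  unfold hardyInt
  refine lintegral_congr fun t => ?_
  have e1 : ((((ω + 1) / 2 + σ : ℝ) : ℂ) + t * Complex.I) - (((ω + 1) / 2 : ℝ) : ℂ) =
      (σ : ℂ) + t * Complex.I := by
    push_cast
    ring
  have e2 : (((ω + 1) / 2 + σ : ℝ) : ℂ) + t * Complex.I =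
      ((ω : ℂ) + 1) / 2 + ((σ : ℂ) + t * Complex.I) := by
    push_cast
    ring
  rw [e1, e2, norm_div, div_pow]
  rfl

/-- `ℓ` is an analytic continuation of the Dirichlet series of `log L` to `Re s > c` -/
def IsLogOf (S : NormSys) (bad : Set S.X) (tr : S.X → ℕ → ℝ) (ω : ℝ) (ℓ : ℂ → ℂ) : Prop :=
  (∀ s : ℂ, (ω + 1) / 2 < s.re → DifferentiableAt ℂ ℓ s) ∧
    ∀ s : ℂ, (ω + 2) / 2 < s.re → ℓ s = LL S (tn S bad tr ω) (s - ((ω : ℂ) + 1) / 2)

theorem IsLogOf.shift (E : TData S (tn S bad tr ω) D) (h : IsLogOf S bad tr ω ℓ) :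
    (∀ w : ℂ, 0 < w.re → DifferentiableAt ℂ (fun w => ℓ (((ω : ℂ) + 1) / 2 + w)) w) ∧
      ∀ w : ℂ, 1 / 2 < w.re → (fun w => ℓ (((ω : ℂ) + 1) / 2 + w)) w = Lam S bad tr ω w := by
  refine ⟨fun w hw => ?_, fun w hw => ?_⟩
  · exact DifferentiableAt.comp (g := ℓ) w (h.1 _ (by rw [re_c]; linarith)) (by fun_prop)
  · simp only []
    rw [h.2 _ (by rw [re_c]; linarith), add_sub_cancel_left, Lam_eq E hw]

/-- **Theorem.** The mean square is finite iff the logarithm extends and lies in the Hardy space. -/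
theorem main_iff (E : TData S (tn S bad tr ω) D) :
    devSq (MK S bad tr ω 0) ρ L 0 < ⊤ ↔ ∃ ℓ : ℂ → ℂ, IsLogOf S bad tr ω ℓ ∧
      ∃ C : ℝ, ∀ σ : ℝ, (ω + 1) / 2 < σ → σ ≤ (ω + 1) / 2 + 1 →
        hardyInt ((ω + 1) / 2) ℓ ρ L σ ≤ ENNReal.ofReal C := by
  rw [devSq_zero]
  constructor
  · intro h
    have W0 : WSq (rem (ap S (tn S bad tr ω)) ρ L 0) := wsq_of_sq h
    obtain ⟨Λ, hΛd, hΛ⟩ := exists_log E W0
    have hsub : ∀ z : ℂ, (z - ((ω : ℂ) + 1) / 2).re = z.re - (ω + 1) / 2 := by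
      intro z
      rw [Complex.sub_re, ← c_cast, Complex.ofReal_re]
    have hℓ : IsLogOf S bad tr ω (fun s => Λ (s - ((ω : ℂ) + 1) / 2)) := by
      refine ⟨fun s hs => ?_, fun s hs => ?_⟩
      · exact DifferentiableAt.comp (g := Λ) s (hΛd _ (by rw [hsub]; linarith)) (by fun_prop)
      · simp only []
        rw [hΛ _ (by rw [hsub]; linarith), Lam_eq E (by rw [hsub]; linarith)]
    have hT : ENNReal.ofReal (2 * Real.pi) * ∫⁻ u in Ioi (0 : ℝ),
        ENNReal.ofReal (rem (ap S (tn S bad tr ω)) ρ L 0 u ^ 2) < ⊤ :=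
      ENNReal.mul_lt_top ENNReal.ofReal_lt_top h
    refine ⟨_, hℓ, (ENNReal.ofReal (2 * Real.pi) * ∫⁻ u in Ioi (0 : ℝ),
        ENNReal.ofReal (rem (ap S (tn S bad tr ω)) ρ L 0 u ^ 2)).toReal, fun σ hσ _ => ?_⟩
    rw [ENNReal.ofReal_toReal hT.ne]
    obtain ⟨τ, rfl⟩ : ∃ τ : ℝ, σ = (ω + 1) / 2 + τ := ⟨σ - (ω + 1) / 2, by ring⟩
    have hτ : 0 < τ := by linarith
    obtain ⟨h1, h2⟩ := hℓ.shift E
    rw [hardyInt_eq, line_identity E h1 h2 W0 hτ]
    refine mul_le_mul' le_rfl (setLIntegral_mono' measurableSet_Ioi fun u hu => ?_)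
    have hu0 : (0 : ℝ) < u := hu
    refine ENNReal.ofReal_le_ofReal ?_
    rw [mul_pow]
    refine mul_le_of_le_one_right (sq_nonneg _) ?_
    rw [← Real.exp_nat_mul]
    refine Real.exp_le_one_iff.mpr ?_
    have := mul_pos hτ hu0
    push_cast
    linarith
  · rintro ⟨ℓ, hℓ, C, hC⟩
    obtain ⟨h1, h2⟩ := hℓ.shift E
    refine sq_of_hardy (ρ := ρ) (L := L) (K := C) E h1 h2 fun σ hσ hσ1 => ?_
    rw [← hardyInt_eq]
    exact hC _ (by linarith) (by linarith)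

/-- **Theorem.** The identity between the mean square and the Hardy norm. -/
theorem main_identity (E : TData S (tn S bad tr ω) D) (hℓ : IsLogOf S bad tr ω ℓ)
    (h : devSq (MK S bad tr ω 0) ρ L 0 < ⊤) :
    (∀ σ : ℝ, (ω + 1) / 2 < σ → hardyInt ((ω + 1) / 2) ℓ ρ L σ =
      ENNReal.ofReal (2 * Real.pi) * devSq (MK S bad tr ω 0) ρ L (σ - (ω + 1) / 2)) ∧
    Tendsto (hardyInt ((ω + 1) / 2) ℓ ρ L) (𝓝[>] ((ω + 1) / 2))
      (𝓝 (ENNReal.ofReal (2 * Real.pi) * devSq (MK S bad tr ω 0) ρ L 0)) ∧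
    ∀ s : ℂ, (ω + 1) / 2 < s.re →
      ‖ℓ s - ρ * Complex.log (s - (((ω + 1) / 2 : ℝ) : ℂ)) - L‖ ^ 2 ≤
      ‖s - (((ω + 1) / 2 : ℝ) : ℂ)‖ ^ 2 / (2 * (s.re - (ω + 1) / 2)) *
        (devSq (MK S bad tr ω 0) ρ L 0).toReal := by
  have P := pair E
  have h' := h
  rw [devSq_zero] at h'
  have W0 : WSq (rem (ap S (tn S bad tr ω)) ρ L 0) := wsq_of_sq h'
  obtain ⟨h1, h2⟩ := hℓ.shift E
  have key : ∀ τ : ℝ, 0 < τ → hardyInt ((ω + 1) / 2) ℓ ρ L ((ω + 1) / 2 + τ) =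
      ENNReal.ofReal (2 * Real.pi) * devSq (MK S bad tr ω 0) ρ L τ := by
    intro τ hτ
    rw [hardyInt_eq, line_identity E h1 h2 W0 hτ, devSq_eq]
  refine ⟨fun σ hσ => ?_, ?_, fun s hs => ?_⟩
  · have := key (σ - (ω + 1) / 2) (by linarith)
    rwa [add_sub_cancel] at this
  · have h3 := ENNReal.Tendsto.const_mul (a := ENNReal.ofReal (2 * Real.pi))
      (weighted_tendsto (rem_meas P.am 0) h') (Or.inr ENNReal.ofReal_ne_top)
    rw [devSq_zero]
    have h4 : Tendsto (fun σ : ℝ => σ - (ω + 1) / 2) (𝓝[>] ((ω + 1) / 2)) (𝓝[>] 0) := by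
      refine tendsto_nhdsWithin_iff.mpr ⟨?_, ?_⟩
      · have : Tendsto (fun σ : ℝ => σ - (ω + 1) / 2) (𝓝 ((ω + 1) / 2))
            (𝓝 ((ω + 1) / 2 - (ω + 1) / 2)) := (continuous_id.sub continuous_const).tendsto _
        rw [sub_self] at this
        exact tendsto_nhdsWithin_of_tendsto_nhds this
      · filter_upwards [self_mem_nhdsWithin] with σ hσ
        have : (ω + 1) / 2 < σ := hσ
        show 0 < σ - (ω + 1) / 2
        linarith
    refine (h3.comp h4).congr' ?_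
    filter_upwards [self_mem_nhdsWithin] with σ hσ
    have hσ' : (ω + 1) / 2 < σ := hσ
    have h5 := key (σ - (ω + 1) / 2) (by linarith)
    rw [add_sub_cancel, devSq_eq] at h5
    exact h5.symm
  · set w : ℂ := s - (((ω + 1) / 2 : ℝ) : ℂ) with hw
    have hwre : w.re = s.re - (ω + 1) / 2 := by rw [hw, Complex.sub_re, Complex.ofReal_re]
    have hw0 : 0 < w.re := by rw [hwre]; linarith
    have h3 := ptw_sq (rem_meas P.am 0) h' hw0
    rw [ident E h1 h2 W0 hw0, norm_div, div_pow, ← devSq_zero] at h3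
    have hwn : 0 < ‖w‖ ^ 2 := by
      have : 0 < ‖w‖ := hw0.trans_le (re_le w)
      positivity
    rw [div_le_iff₀ hwn] at h3
    have e : gg (fun w => ℓ (((ω : ℂ) + 1) / 2 + w)) ρ L w = ℓ s - ρ * Complex.log w - L := by
      unfold gg
      have : ((ω : ℂ) + 1) / 2 + w = s := by
        rw [hw]
        push_cast
        ring
      show ℓ (((ω : ℂ) + 1) / 2 + w) - _ - _ = _
      rw [this]
    rw [e] at h3
    refine h3.trans (le_of_eq ?_)
    rw [← hwre]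
    ring

/-- convergence off a set of finite logarithmic measure -/
theorem main_exc (E : TData S (tn S bad tr ω) D) (h : devSq (MK S bad tr ω 0) ρ L 0 < ⊤) :
    ∃ X : Set ℝ, FinLog X ∧ Tendsto (fun x => MK S bad tr ω 0 x - LG.mt ρ L 0 x) (offE X) (𝓝 0) := by
  have P := pair E
  rw [devSq_zero] at h
  have h1 := (int_of_sq (rem_meas P.am 0) h).mono_set
    (Ioi_subset_Ioi (Real.log_pos (by norm_num : (1 : ℝ) < 2)).le)
  obtain ⟨X, hX, hl⟩ := exc_log (rem_meas P.am 0) h1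
  refine ⟨X, hX, hl.congr' ?_⟩
  filter_upwards [(offE_le X) (eventually_gt_atTop 1)] with x hx
  rw [rem_zero_eq hx]

theorem main_unique (E : TData S (tn S bad tr ω) D) (h : devSq (MK S bad tr ω 0) ρ L 0 < ⊤)
    (h' : devSq (MK S bad tr ω 0) ρ' L' 0 < ⊤) : ρ = ρ' ∧ L = L' := by
  obtain ⟨X, hX, hl⟩ := main_exc E h
  obtain ⟨X', hX', hl'⟩ := main_exc E h'
  have hne : (offE (X ∪ X')).NeBot := (hX.union hX').neBot
  exact MS.main_unique (offE_le _) (hl.mono_left (offE_mono subset_union_left))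
    (hl'.mono_left (offE_mono subset_union_right))

end Pool.Agent.W263.HI
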