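import Pool.Agent.W263.MS.Hardy4

/-! Inverse Laplace transform with polynomial bounds; the exact Plancherel identity. -/

set_option autoImplicit false

namespace Pool.Agent.W263.HI

open MeasureTheory Filter Topology Set Classical
open Pool.Agent.W263.BSD Pool.Agent.W263.EP Pool.Agent.W263.MN Pool.Agent.W263.LG
open Pool.Agent.W263.MS
open Pool.Agent.H341R2 (NormSys)
open scoped ENNReal FourierTransform

/-- bounds for `f` from bounds for its transform -/
theorem inv_poly {f : ℝ → ℝ} (hf : Measurable f) (hc : ∀ u, 0 < u → ContinuousAt f u)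
    (hi : LInt f 1) {H : ℂ → ℂ} (hd : ∀ w : ℂ, 0 < w.re → DifferentiableAt ℂ H w) {A : ℕ}
    {C : ℝ} (hC0 : 0 ≤ C)
    (hC : ∀ w : ℂ, 0 < w.re → w.re ≤ 1 →
      ‖H w‖ ≤ C * (1 / w.re) ^ A * (1 + |w.im|) ^ (-(3 / 2 : ℝ)))
    (heq : ∀ w : ℂ, w.re = 1 → lapC f w = H w) :
    ∃ C' : ℝ, ∀ u : ℝ, 1 ≤ u → |f u| ≤ C' * u ^ A := by
  set I0 : ℝ := ∫ y : ℝ, (1 + |y|) ^ (-(3 / 2 : ℝ)) with hI0
  have hI0n : 0 ≤ I0 := integral_nonneg fun y => by positivity
  refine ⟨Real.exp 1 * (C * I0), fun u hu => ?_⟩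
  have hu0 : 0 < u := by linarith
  set a : ℝ := 1 / u with ha
  have ha0 : 0 < a := by rw [ha]; positivity
  have ha1 : a ≤ 1 := by rw [ha, div_le_one hu0]; exact hu
  have hau : 1 / a = u := by rw [ha, one_div_one_div]
  -- bound on the strip
  have hstrip : ∀ w : ℂ, a ≤ w.re → w.re ≤ 1 → ‖H w‖ ≤
      C * u ^ A * (1 + |w.im|) ^ (-(3 / 2 : ℝ)) := by
    intro w h1 h2
    have hw0 : 0 < w.re := lt_of_lt_of_le ha0 h1
    have h4 : 1 / w.re ≤ u := by
      rw [div_le_iff₀ hw0]
      rw [ha, div_le_iff₀ hu0] at h1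
      linarith
    have h5 : 0 ≤ 1 / w.re := by positivity
    have h6 := pow_le_pow_left₀ h5 h4 A
    refine (hC w hw0 h2).trans ?_
    gcongr
  -- integrability on the line one
  have hline : ∀ y : ℝ, lapC f (1 + y * Complex.I) = H (((1 : ℝ) : ℂ) + y * Complex.I) := by
    intro y
    rw [heq _ (by simp), Complex.ofReal_one]
  have hI : Integrable fun y : ℝ => lapC f (1 + y * Complex.I) := by
    have h1 := vertical_integrable (H := H) (a := 1)
      (fun s hs => (hd s (by rw [hs]; exact one_pos)).continuousAt)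
      (fun s hs => hstrip s (by rw [hs]; exact ha1) hs.le)
    exact h1.congr (Eventually.of_forall fun y => (hline y).symm)
  have hinv := lap_inversion hf hu0 (hc u hu0) hi hI
  -- the shift
  have hshift := contour_shift (H := fun w => Complex.exp (w * u) * H w)
    (B := Real.exp u * (C * u ^ A)) ha1
    (fun s h1 h2 => (by fun_prop : DifferentiableAt ℂ (fun w : ℂ => Complex.exp (w * u)) s).mul
      (hd s (lt_of_lt_of_le ha0 h1)))
    (fun s h1 h2 => by
      rw [norm_mul, Complex.norm_exp]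
      have e1 : (s * (u : ℂ)).re = s.re * u := by simp
      have e2 : Real.exp (s * (u : ℂ)).re ≤ Real.exp u := by
        rw [e1]
        exact Real.exp_le_exp.mpr (by nlinarith)
      rw [mul_assoc]
      exact mul_le_mul e2 (hstrip s h1 h2) (norm_nonneg _) (Real.exp_pos _).le)
  have hfin : (f u : ℂ) = (1 / (2 * Real.pi) : ℝ) *
      ∫ y : ℝ, Complex.exp ((a + y * Complex.I) * u) * H (a + y * Complex.I) := by
    rw [hinv]
    congr 1
    rw [hshift]
    congr 1
    funext y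
    rw [hline y, Complex.ofReal_one]
  have hnorm : |f u| = ‖(f u : ℂ)‖ := by rw [Complex.norm_real, Real.norm_eq_abs]
  rw [hnorm, hfin, norm_mul, Complex.norm_real, Real.norm_of_nonneg (by positivity)]
  have hbd : ‖∫ y : ℝ, Complex.exp ((a + y * Complex.I) * u) * H (a + y * Complex.I)‖ ≤
      ∫ y : ℝ, Real.exp 1 * (C * u ^ A * (1 + |y|) ^ (-(3 / 2 : ℝ))) := by
    refine norm_integral_le_of_norm_le ?_ (Eventually.of_forall fun y => ?_)
    · exact ((integrable_decay.const_mul _)).const_mul _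
    · rw [norm_mul, Complex.norm_exp]
      have e1 : (((a : ℂ) + y * Complex.I) * (u : ℂ)).re = 1 := by
        simp only [Complex.mul_re, Complex.add_re, Complex.ofReal_re, Complex.I_re,
          Complex.add_im, Complex.ofReal_im, Complex.mul_im, Complex.I_im]
        rw [ha]
        field_simp
        ring
      rw [e1]
      refine mul_le_mul_of_nonneg_left ?_ (Real.exp_pos _).le
      have e2 := hstrip ((a : ℂ) + y * Complex.I) (by simp) (by simpa using ha1)
      have e4 : ((a : ℂ) + y * Complex.I).im = y := by simp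
      rw [e4] at e2
      exact e2
  have hval : ∫ y : ℝ, Real.exp 1 * (C * u ^ A * (1 + |y|) ^ (-(3 / 2 : ℝ))) =
      Real.exp 1 * (C * u ^ A * I0) := by
    rw [integral_const_mul, integral_const_mul]
  rw [hval] at hbd
  have h2pi : 1 / (2 * Real.pi) ≤ 1 := by
    rw [div_le_one (by positivity)]
    linarith [Real.pi_gt_three]
  have h0 : 0 ≤ Real.exp 1 * (C * u ^ A * I0) := by positivity
  calc 1 / (2 * Real.pi) * ‖∫ y : ℝ, Complex.exp ((a + y * Complex.I) * u) *
        H (a + y * Complex.I)‖ ≤ 1 / (2 * Real.pi) * (Real.exp 1 * (C * u ^ A * I0)) := by gcongr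
    _ ≤ 1 * (Real.exp 1 * (C * u ^ A * I0)) := mul_le_mul_of_nonneg_right h2pi h0
    _ = _ := by ring

variable {h : ℝ → ℝ}

/-- **Plancherel on a vertical line.** -/
theorem plancherel_eq (hm : Measurable h) (hw : WSq h) {σ : ℝ} (hσ : 0 < σ)
    (hc : Continuous fun y : ℝ => lapC h ((σ : ℂ) + y * Complex.I)) :
    ∫⁻ y : ℝ, ENNReal.ofReal (‖lapC h ((σ : ℂ) + y * Complex.I)‖ ^ 2) =
      ENNReal.ofReal (2 * Real.pi) *
        ∫⁻ u in Ioi (0 : ℝ), ENNReal.ofReal ((h u * Real.exp (-(σ * u))) ^ 2) := by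
  -- restrict to the half line
  set k : ℝ → ℝ := (Ioi (0 : ℝ)).indicator h with hk
  have hkm : Measurable k := hm.indicator measurableSet_Ioi
  have hk0 : ∀ u, u ≤ 0 → k u = 0 := fun u hu => indicator_of_notMem (not_lt.mpr hu) _
  have hke : ∀ u, 0 < u → h u = k u := fun u hu => (indicator_of_mem (show u ∈ Ioi (0:ℝ) from hu) h).symm
  have hkw : WSq k := wsq_congr hke hw
  have hkl : ∀ w : ℂ, lapC h w = lapC k w := fun w => lapC_congr' hke
  obtain ⟨hPi, hP2⟩ := P_of_wsq hkm hk0 hkw hσ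
  have hpl := Pool.Agent.Helper76.NormalHP.plancherel_lintegral _ hPi hP2
  simp only [hkl] at hc ⊢
  have hmeas : Measurable fun y : ℝ => ENNReal.ofReal (‖lapC k ((σ : ℂ) + y * Complex.I)‖ ^ 2) :=
    ((hc.norm).pow 2).measurable.ennreal_ofReal
  rw [lintegral_two_pi_eq hmeas]
  congr 1
  calc ∫⁻ ξ : ℝ, ENNReal.ofReal (‖lapC k ((σ : ℂ) + (2 * Real.pi * ξ : ℝ) * Complex.I)‖ ^ 2) =
      ∫⁻ ξ : ℝ, ‖𝓕 (fun u : ℝ => (k u : ℂ) * Complex.exp (-(σ * u))) ξ‖ₑ ^ 2 := by
        refine lintegral_congr fun ξ => ?_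
        rw [fourier_P hk0 σ ξ, ← ofReal_norm, ← ENNReal.ofReal_pow (norm_nonneg _)]
    _ = ∫⁻ u : ℝ, ‖(k u : ℂ) * Complex.exp (-(σ * u))‖ₑ ^ 2 := hpl
    _ = ∫⁻ u in Ioi (0 : ℝ), ‖(k u : ℂ) * Complex.exp (-(σ * u))‖ₑ ^ 2 := by
        rw [← lintegral_indicator measurableSet_Ioi]
        refine lintegral_congr fun u => ?_
        by_cases hu : u ∈ Ioi (0 : ℝ)
        · rw [indicator_of_mem hu]
        · rw [indicator_of_notMem hu, hk0 u (not_lt.mp hu)]
          simp
    _ = _ := by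
        refine setLIntegral_congr_fun measurableSet_Ioi fun u hu => ?_
        have hu0 : (0 : ℝ) < u := hu
        rw [← ofReal_norm, ← ENNReal.ofReal_pow (norm_nonneg _)]
        congr 1
        rw [norm_mul, Complex.norm_real, Complex.norm_exp, mul_pow, mul_pow, Real.norm_eq_abs,
          sq_abs, hke u hu0]
        have e1 : (-((σ : ℂ) * u)).re = -(σ * u) := by simp
        rw [e1]

end Pool.Agent.W263.HI
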